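import Pool.Agent.W734.TWB.Stms

/-!
# TWB-GA: the resolvent `(κ - Δ)⁻¹` as convolution with the kernel
-/

set_option autoImplicit false

noncomputable section

namespace Pool.Agent.W3.TWB

open MeasureTheory Set Filter Metric
open Pool.Agent.W734.TWB

/-- integrability of translated kernels times a bounded function -/
theorem int_kh {k h : E3 → ℝ} (hk : Integrable k) (hm : Measurable h)
    (hb : ∃ B : ℝ, ∀ x, |h x| ≤ B) (x : E3) : Integrable (fun y => k (x - y) * h y) := by
  obtain ⟨B, hB⟩ := hb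
  have h1 : Integrable (fun y => k (x - y)) := hk.comp_sub_left x
  exact h1.mul_bdd (c := B) hm.aestronglyMeasurable
    (Eventually.of_forall fun y => by simpa using hB y)

/-- strict positivity of an integral -/
theorem int_pos {f : E3 → ℝ} (hf : Integrable f) (h0 : ∀ y, 0 ≤ f y) (x : E3)
    (h1 : ∀ y, y ≠ x → 0 < f y) : 0 < ∫ y, f y := by
  rw [integral_pos_iff_support_of_nonneg h0 hf]
  have h2 : (univ \ {x} : Set E3) ⊆ Function.support f := by
    intro y hy
    exact (h1 y (by simpa using hy)).ne'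
  refine lt_of_lt_of_le ?_ (measure_mono h2)
  have h3 : volume (univ \ {x} : Set E3) = volume (univ : Set E3) :=
    measure_sdiff_null (by simp)
  rw [h3]
  simp

/-- Cauchy-Schwarz for real functions -/
theorem cs {f g : E3 → ℝ} (hf : Measurable f) (hg : Measurable g)
    (hf2 : Integrable (fun y => f y ^ 2)) (hg2 : Integrable (fun y => g y ^ 2)) :
    Integrable (fun y => f y * g y) ∧
    |∫ y, f y * g y| ≤ Real.sqrt (∫ y, f y ^ 2) * Real.sqrt (∫ y, g y ^ 2) := by
  have hi : Integrable (fun y => f y * g y) := by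
    refine Integrable.mono' (hf2.add hg2) (hf.mul hg).aestronglyMeasurable
      (Eventually.of_forall fun y => ?_)
    simp only [Pi.add_apply, Real.norm_eq_abs, abs_mul]
    nlinarith [sq_nonneg (|f y| - |g y|), sq_abs (f y), sq_abs (g y), abs_nonneg (f y),
      abs_nonneg (g y)]
  refine ⟨hi, ?_⟩
  set A := ∫ y, f y ^ 2 with hA
  set B := ∫ y, g y ^ 2 with hB
  set I := ∫ y, f y * g y with hI
  have hA0 : 0 ≤ A := integral_nonneg fun y => sq_nonneg _
  have hB0 : 0 ≤ B := integral_nonneg fun y => sq_nonneg _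
  have key : ∀ t : ℝ, 0 ≤ A * (t * t) + (2 * I) * t + B := by
    intro t
    have e : A * (t * t) + (2 * I) * t + B = ∫ y, (t * f y + g y) ^ 2 := by
      have e1 : (fun y => (t * f y + g y) ^ 2) =
          fun y => (t * t) * f y ^ 2 + ((2 * t) * (f y * g y) + g y ^ 2) := by
        funext y; ring
      have e2 : Integrable (fun y => (2 * t) * (f y * g y) + g y ^ 2) :=
        (hi.const_mul _).add hg2
      rw [e1, integral_add (hf2.const_mul _) e2,
        integral_add (hi.const_mul _) hg2, integral_const_mul, integral_const_mul]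
      ring
    rw [e]
    exact integral_nonneg fun y => sq_nonneg _
  have hd := discrim_le_zero key
  have h4 : I ^ 2 ≤ A * B := by
    unfold discrim at hd
    nlinarith
  rw [← Real.sqrt_mul hA0]
  exact Real.abs_le_sqrt h4

/-- Fubini for a convolution tested against an integrable function -/
theorem fub {k h φ : E3 → ℝ} (hk : Integrable k) (hm : Measurable h)
    (hb : ∃ B : ℝ, ∀ x, |h x| ≤ B) (hφ : Integrable φ) :
    Integrable (fun x => cv3 k h x * φ x) ∧
    Integrable (fun y => h y * ∫ x, k (x - y) * φ x) ∧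
    ∫ x, cv3 k h x * φ x = ∫ y, h y * ∫ x, k (x - y) * φ x := by
  obtain ⟨B, hB⟩ := hb
  have h1 : Integrable (fun p : E3 × E3 => φ p.2 * k (p.2 - p.1)) (volume.prod volume) := by
    have h2 : Integrable (fun z : E3 => k (-z)) := hk.comp_neg
    have h3 := Integrable.convolution_integrand (ContinuousLinearMap.mul ℝ ℝ) hφ h2
    refine h3.congr (Eventually.of_forall fun p => ?_)
    simp
  have h4 : Integrable (fun p : E3 × E3 => k (p.2 - p.1) * h p.1 * φ p.2)
      (volume.prod volume) := by
    have h5 : Integrable (fun p : E3 × E3 => φ p.2 * k (p.2 - p.1) * h p.1)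
        (volume.prod volume) :=
      h1.mul_bdd (c := B) (hm.comp measurable_fst).aestronglyMeasurable
        (Eventually.of_forall fun p => by simpa using hB p.1)
    refine h5.congr (Eventually.of_forall fun p => ?_)
    ring
  have e1 : ∀ x, cv3 k h x * φ x = ∫ y, k (x - y) * h y * φ x := by
    intro x
    rw [cv3, integral_mul_const]
  have e2 : ∀ y, h y * ∫ x, k (x - y) * φ x = ∫ x, k (x - y) * h y * φ x := by
    intro y
    rw [← integral_const_mul]
    congr 1
    funext x
    ring
  simp_rw [e1, e2]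
  refine ⟨h4.integral_prod_right, h4.integral_prod_left, ?_⟩
  exact (integral_integral_swap (f := fun y x => k (x - y) * h y * φ x) h4).symm

/-- the fundamental solution, translated -/
theorem fund_tr {κ : ℝ} {K : E3 → ℝ} {D : Fin 3 → E3 → ℝ} (H : Kern κ K D) {η : E3 → ℝ}
    (h1 : ContDiff ℝ 1 η) (h2 : HasCompactSupport η) (y : E3) :
    (∑ k : Fin 3, ∫ x, D k (x - y) * fderiv ℝ η x (EuclideanSpace.single k (1 : ℝ)))
      + κ * ∫ x, K (x - y) * η x = η y := by
  have hb : ∀ k : Fin 3, ∃ B, ∀ x, ‖fderiv ℝ η x (EuclideanSpace.single k (1 : ℝ))‖ ≤ B := by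
    intro k
    have hc : Continuous (fun x => fderiv ℝ η x (EuclideanSpace.single k (1 : ℝ))) :=
      (h1.continuous_fderiv one_ne_zero).clm_apply continuous_const
    have hs : HasCompactSupport (fun x => fderiv ℝ η x (EuclideanSpace.single k (1 : ℝ))) :=
      h2.fderiv_apply (𝕜 := ℝ) _
    exact hc.bounded_above_of_compact_support hs
  have hb0 : ∃ B, ∀ x, ‖η x‖ ≤ B := h1.continuous.bounded_above_of_compact_support h2
  set ζ : E3 → ℝ := fun z => η (z + y) with hζ
  have z1 : ContDiff ℝ 1 ζ := h1.comp (contDiff_id.add contDiff_const)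
  have z2 : HasCompactSupport ζ := by
    have := h2.comp_homeomorph (Homeomorph.addRight y)
    exact this
  have z3 : ∀ z, fderiv ℝ ζ z = fderiv ℝ η (z + y) := by
    intro z
    exact fderiv_comp_add_right y
  have h3 := H.fund ζ z1 z2
  have i1 : ∀ k : Fin 3, Integrable
      (fun z => D k z * fderiv ℝ η (z + y) (EuclideanSpace.single k (1 : ℝ))) := by
    intro k
    obtain ⟨B, hB⟩ := hb k
    refine (H.intD k).mul_bdd (c := B) ?_ (Eventually.of_forall fun z => hB _)
    have hc : Continuous (fun x => fderiv ℝ η (x + y) (EuclideanSpace.single k (1 : ℝ))) :=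
      ((h1.continuous_fderiv one_ne_zero).comp (continuous_id.add continuous_const)).clm_apply
        continuous_const
    exact hc.aestronglyMeasurable
  have i2 : Integrable (fun z => κ * K z * η (z + y)) := by
    obtain ⟨B, hB⟩ := hb0
    refine (H.intK.const_mul κ).mul_bdd (c := B) ?_ (Eventually.of_forall fun z => hB _)
    exact (h1.continuous.comp (continuous_id.add continuous_const)).aestronglyMeasurable
  have e1 : ∀ z, ζ z = η (z + y) := fun z => rfl
  simp_rw [z3, e1] at h3
  rw [integral_add (integrable_finsetSum _ fun k _ => i1 k) i2,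
    integral_finsetSum _ fun k _ => i1 k] at h3
  rw [zero_add] at h3
  rw [← h3]
  congr 1
  · refine Finset.sum_congr rfl fun k _ => ?_
    rw [← integral_sub_right_eq_self
      (fun z => D k z * fderiv ℝ η (z + y) (EuclideanSpace.single k (1 : ℝ))) y]
    refine integral_congr_ae (Eventually.of_forall fun x => ?_)
    simp
  · rw [← integral_const_mul]
    rw [← integral_sub_right_eq_self (fun z => κ * K z * η (z + y)) y]
    refine integral_congr_ae (Eventually.of_forall fun x => ?_)
    simp [mul_assoc]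

/-- the weak equation -/
theorem weak {κ : ℝ} {K : E3 → ℝ} {D : Fin 3 → E3 → ℝ} (H : Kern κ K D) {h : E3 → ℝ}
    (hm : Measurable h) (hb : ∃ B : ℝ, ∀ x, |h x| ≤ B) (hD : ∀ x (k : Fin 3),
      fderiv ℝ (cv3 K h) x (EuclideanSpace.single k (1 : ℝ)) = cv3 (D k) h x) {η : E3 → ℝ}
    (h1 : ContDiff ℝ 1 η) (h2 : HasCompactSupport η) :
    ∫ x, (dot3 (cv3 K h) η x + κ * cv3 K h x * η x) = ∫ x, h x * η x := by
  have hη : Integrable η := h1.continuous.integrable_of_hasCompactSupport h2
  have hηk : ∀ k : Fin 3,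
      Integrable (fun x => fderiv ℝ η x (EuclideanSpace.single k (1 : ℝ))) := by
    intro k
    have hc : Continuous (fun x => fderiv ℝ η x (EuclideanSpace.single k (1 : ℝ))) :=
      (h1.continuous_fderiv one_ne_zero).clm_apply continuous_const
    have hs : HasCompactSupport (fun x => fderiv ℝ η x (EuclideanSpace.single k (1 : ℝ))) :=
      h2.fderiv_apply (𝕜 := ℝ) _
    exact hc.integrable_of_hasCompactSupport hs
  have f0 := fub H.intK hm hb hη
  have f1 := fun k : Fin 3 => fub (H.intD k) hm hb (hηk k)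
  have e0 : ∀ x, dot3 (cv3 K h) η x + κ * cv3 K h x * η x =
      (∑ k : Fin 3, cv3 (D k) h x * fderiv ℝ η x (EuclideanSpace.single k (1 : ℝ)))
        + κ * (cv3 K h x * η x) := by
    intro x
    simp only [dot3, hD]
    ring
  simp_rw [e0]
  rw [integral_add (integrable_finsetSum _ fun k _ => (f1 k).1) (f0.1.const_mul κ),
    integral_finsetSum _ fun k _ => (f1 k).1, integral_const_mul, f0.2.2]
  simp_rw [(f1 _).2.2]
  rw [← integral_finsetSum _ fun k _ => (f1 k).2.1, ← integral_const_mul,
    ← integral_add (integrable_finsetSum _ fun k _ => (f1 k).2.1) (f0.2.1.const_mul κ)]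
  refine integral_congr_ae (Eventually.of_forall fun y => ?_)
  simp only
  rw [← fund_tr H h1 h2 y, mul_add, Finset.mul_sum]
  ring

/-- a cutoff sequence -/
theorem cutoff : ∃ (χ : ℕ → E3 → ℝ) (C : ℝ), (∀ n, ContDiff ℝ 1 (χ n)) ∧
    (∀ n, HasCompactSupport (χ n)) ∧ (∀ n x, 0 ≤ χ n x ∧ χ n x ≤ 1) ∧
    (∀ x, Tendsto (fun n => χ n x) atTop (nhds 1)) ∧
    (∀ n x (k : Fin 3), |fderiv ℝ (χ n) x (EuclideanSpace.single k (1 : ℝ))| ≤ C) ∧
    (∀ x (k : Fin 3), Tendsto (fun n => fderiv ℝ (χ n) x (EuclideanSpace.single k (1 : ℝ)))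
      atTop (nhds 0)) := by
  let χ : ContDiffBump (0 : E3) := ⟨1, 2, one_pos, by norm_num⟩
  have hχ1 : ContDiff ℝ 1 (χ : E3 → ℝ) := χ.contDiff
  have hχs : HasCompactSupport (χ : E3 → ℝ) := χ.hasCompactSupport
  obtain ⟨C, hC⟩ : ∃ C, ∀ x, ‖fderiv ℝ (χ : E3 → ℝ) x‖ ≤ C :=
    (hχ1.continuous_fderiv one_ne_zero).bounded_above_of_compact_support (hχs.fderiv ℝ)
  have hC0 : 0 ≤ C := (norm_nonneg _).trans (hC 0)
  have hcn : ∀ n : ℕ, (0 : ℝ) < 1 / ((n : ℝ) + 1) := fun n => by positivity
  have hcn1 : ∀ n : ℕ, (1 : ℝ) / ((n : ℝ) + 1) ≤ 1 := fun n => by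
    rw [div_le_one (by positivity)]
    have : (0 : ℝ) ≤ n := Nat.cast_nonneg n
    linarith
  have hlim : Tendsto (fun n : ℕ => (1 : ℝ) / ((n : ℝ) + 1)) atTop (nhds 0) :=
    tendsto_one_div_add_atTop_nhds_zero_nat
  have hfd : ∀ (n : ℕ) (x v : E3), fderiv ℝ (fun x => χ ((1 / ((n : ℝ) + 1)) • x)) x v =
      (1 / ((n : ℝ) + 1)) * fderiv ℝ (χ : E3 → ℝ) ((1 / ((n : ℝ) + 1)) • x) v := by
    intro n x v
    have g1 : HasFDerivAt (fun x : E3 => (1 / ((n : ℝ) + 1)) • x)
        ((1 / ((n : ℝ) + 1)) • ContinuousLinearMap.id ℝ E3) x :=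
      HasFDerivAt.fun_const_smul (hasFDerivAt_id x) (1 / ((n : ℝ) + 1))
    have g2 : HasFDerivAt (χ : E3 → ℝ) (fderiv ℝ (χ : E3 → ℝ) ((1 / ((n : ℝ) + 1)) • x))
        ((1 / ((n : ℝ) + 1)) • x) :=
      (hχ1.differentiable one_ne_zero _).hasFDerivAt
    have g3 := (g2.comp x g1).fderiv
    have g4 : ((χ : E3 → ℝ) ∘ fun x : E3 => (1 / ((n : ℝ) + 1)) • x) =
      fun x => χ ((1 / ((n : ℝ) + 1)) • x) := rfl
    rw [g4] at g3
    rw [g3]
    simp
  refine ⟨fun n x => χ ((1 / ((n : ℝ) + 1)) • x), C, ?_, ?_, ?_, ?_, ?_, ?_⟩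
  · intro n
    exact hχ1.comp (contDiff_id.const_smul _)
  · intro n
    exact hχs.comp_homeomorph (Homeomorph.smulOfNeZero (1 / ((n : ℝ) + 1)) (hcn n).ne')
  · intro n x
    exact ⟨χ.nonneg, χ.le_one⟩
  · intro x
    have h3 : Tendsto (fun n : ℕ => (1 / ((n : ℝ) + 1)) • x) atTop (nhds ((0 : ℝ) • x)) :=
      hlim.smul_const x
    rw [zero_smul] at h3
    have h4 := (hχ1.continuous.tendsto 0).comp h3
    have h5 : χ (0 : E3) = 1 := χ.one_of_mem_closedBall (by simpa using χ.rIn_pos.le)
    rw [h5] at h4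
    exact h4
  · intro n x k
    rw [hfd n x, abs_mul, abs_of_pos (hcn n)]
    have h6 : |fderiv ℝ (χ : E3 → ℝ) ((1 / ((n : ℝ) + 1)) • x)
        (EuclideanSpace.single k (1 : ℝ))| ≤ C := by
      rw [← Real.norm_eq_abs]
      refine (ContinuousLinearMap.le_opNorm _ _).trans ?_
      simpa using hC _
    calc _ ≤ 1 * C := mul_le_mul (hcn1 n) h6 (abs_nonneg _) zero_le_one
      _ = C := one_mul C
  · intro x k
    simp_rw [hfd]
    have h7 : Tendsto (fun n : ℕ => (1 / ((n : ℝ) + 1)) * C) atTop (nhds 0) := by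
      simpa using hlim.mul_const C
    refine squeeze_zero_norm (fun n => ?_) h7
    rw [norm_mul, Real.norm_of_nonneg (hcn n).le]
    refine mul_le_mul_of_nonneg_left ?_ (hcn n).le
    refine (ContinuousLinearMap.le_opNorm _ _).trans ?_
    simpa using hC _

/-- the energy identity from the weak equation -/
theorem energy {κ : ℝ} {h G : E3 → ℝ} (hh : Nice h) (hG : Nice G) (h1 : ContDiff ℝ 1 G)
    (hgs : Integrable (fun x => dot3 G G x))
    (hw : ∀ η : E3 → ℝ, ContDiff ℝ 1 η → HasCompactSupport η →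
      ∫ x, (dot3 G η x + κ * G x * η x) = ∫ x, h x * η x) :
    ∫ x, (dot3 G G x + κ * G x ^ 2) = ∫ x, h x * G x := by
  obtain ⟨χ, C, c1, c2, c3, c4, c5, c6⟩ := cutoff
  have hgk : ∀ k : Fin 3, Continuous (fun x => fderiv ℝ G x (EuclideanSpace.single k (1 : ℝ))) :=
    fun k => (h1.continuous_fderiv one_ne_zero).clm_apply continuous_const
  have hgk2 : ∀ k : Fin 3,
      Integrable (fun x => (fderiv ℝ G x (EuclideanSpace.single k (1 : ℝ))) ^ 2) := by
    intro k
    refine Integrable.mono' hgs ((hgk k).pow 2).aestronglyMeasurable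
      (Eventually.of_forall fun x => ?_)
    rw [Real.norm_of_nonneg (sq_nonneg _), sq, dot3]
    exact Finset.single_le_sum
      (f := fun k : Fin 3 => fderiv ℝ G x (EuclideanSpace.single k (1 : ℝ))
        * fderiv ℝ G x (EuclideanSpace.single k (1 : ℝ)))
      (fun i _ => mul_self_nonneg _) (Finset.mem_univ k)
  have hC0 : 0 ≤ C := (abs_nonneg _).trans (c5 0 0 0)
  have hfd : ∀ n x (k : Fin 3), fderiv ℝ (fun x => χ n x * G x) x
      (EuclideanSpace.single k (1 : ℝ)) =
      χ n x * fderiv ℝ G x (EuclideanSpace.single k (1 : ℝ))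
        + G x * fderiv ℝ (χ n) x (EuclideanSpace.single k (1 : ℝ)) := by
    intro n x k
    have g1 : HasFDerivAt (χ n) (fderiv ℝ (χ n) x) x :=
      ((c1 n).differentiable one_ne_zero x).hasFDerivAt
    have g2 : HasFDerivAt G (fderiv ℝ G x) x := (h1.differentiable one_ne_zero x).hasFDerivAt
    rw [(g1.fun_mul g2).fderiv]
    simp
  have hwn : ∀ n, ∫ x, (dot3 G (fun x => χ n x * G x) x + κ * G x * (χ n x * G x)) =
      ∫ x, h x * (χ n x * G x) := fun n =>
    hw _ ((c1 n).mul h1) ((c2 n).mul_right)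
  have hGk : ∀ k : Fin 3, Integrable (fun x =>
      fderiv ℝ G x (EuclideanSpace.single k (1 : ℝ)) * G x) := fun k =>
    (cs (hgk k).measurable hG.meas (hgk2 k) hG.sq).1
  have hhG : Integrable (fun x => h x * G x) := (cs hh.meas hG.meas hh.sq hG.sq).1
  -- left hand side
  have L1 : Tendsto (fun n => ∫ x, (dot3 G (fun x => χ n x * G x) x + κ * G x * (χ n x * G x)))
      atTop (nhds (∫ x, (dot3 G G x + κ * G x ^ 2))) := by
    refine tendsto_integral_of_dominated_convergence
      (fun x => (∑ k : Fin 3, ((fderiv ℝ G x (EuclideanSpace.single k (1 : ℝ))) ^ 2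
        + |fderiv ℝ G x (EuclideanSpace.single k (1 : ℝ)) * G x| * C)) + |κ| * G x ^ 2)
      ?_ ?_ ?_ ?_
    · intro n
      have d1 : Measurable (fun x => dot3 G (fun x => χ n x * G x) x) := by
        unfold dot3
        refine Finset.measurable_sum _ fun k _ => ?_
        refine (hgk k).measurable.mul ?_
        exact ((((c1 n).mul h1).continuous_fderiv one_ne_zero).clm_apply
          continuous_const).measurable
      exact (d1.add ((measurable_const.mul hG.meas).mul
        ((c1 n).continuous.measurable.mul hG.meas))).aestronglyMeasurable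
    · refine (integrable_finsetSum _ fun k _ => (hgk2 k).add ?_).add (hG.sq.const_mul _)
      exact (hGk k).abs.mul_const C
    · intro n
      refine Eventually.of_forall fun x => ?_
      simp only [dot3, hfd]
      refine (norm_add_le _ _).trans (add_le_add ?_ ?_)
      · refine (norm_sum_le _ _).trans (Finset.sum_le_sum fun k _ => ?_)
        rw [mul_add]
        refine (norm_add_le _ _).trans (add_le_add ?_ ?_)
        · rw [norm_mul, norm_mul, Real.norm_of_nonneg (c3 n x).1]
          have : ‖fderiv ℝ G x (EuclideanSpace.single k (1 : ℝ))‖ ^ 2 =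
            (fderiv ℝ G x (EuclideanSpace.single k (1 : ℝ))) ^ 2 := by
            rw [Real.norm_eq_abs, sq_abs]
          rw [← this]
          nlinarith [(c3 n x).1, (c3 n x).2, sq_nonneg
            ‖fderiv ℝ G x (EuclideanSpace.single k (1 : ℝ))‖]
        · rw [← mul_assoc, norm_mul]
          exact mul_le_mul_of_nonneg_left (c5 n x k) (norm_nonneg _)
      · rw [norm_mul, norm_mul, norm_mul, Real.norm_of_nonneg (c3 n x).1]
        have : ‖G x‖ ^ 2 = G x ^ 2 := by rw [Real.norm_eq_abs, sq_abs]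
        rw [← this, Real.norm_eq_abs κ]
        have k1 : 0 ≤ |κ| * ‖G x‖ ^ 2 := by positivity
        calc |κ| * ‖G x‖ * (χ n x * ‖G x‖) = χ n x * (|κ| * ‖G x‖ ^ 2) := by ring
          _ ≤ 1 * (|κ| * ‖G x‖ ^ 2) := mul_le_mul_of_nonneg_right (c3 n x).2 k1
          _ = |κ| * ‖G x‖ ^ 2 := one_mul _
    · refine Eventually.of_forall fun x => ?_
      simp only [dot3, hfd]
      refine Tendsto.add ?_ ?_
      · refine tendsto_finsetSum _ fun k _ => ?_
        refine Tendsto.const_mul _ ?_
        have t1 : Tendsto (fun n => χ n x * fderiv ℝ G x (EuclideanSpace.single k (1 : ℝ))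
          + G x * fderiv ℝ (χ n) x (EuclideanSpace.single k (1 : ℝ))) atTop
          (nhds (1 * fderiv ℝ G x (EuclideanSpace.single k (1 : ℝ)) + G x * 0)) :=
          ((c4 x).mul_const _).add ((c6 x k).const_mul _)
        simpa using t1
      · have t2 : Tendsto (fun n => κ * G x * (χ n x * G x)) atTop
          (nhds (κ * G x * (1 * G x))) := ((c4 x).mul_const _).const_mul _
        have e : κ * G x ^ 2 = κ * G x * (1 * G x) := by ring
        rw [e]
        exact t2
  have L2 : Tendsto (fun n => ∫ x, h x * (χ n x * G x)) atTop (nhds (∫ x, h x * G x)) := by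
    refine tendsto_integral_of_dominated_convergence (fun x => |h x * G x|) ?_ hhG.abs ?_ ?_
    · intro n
      exact (hh.meas.mul ((c1 n).continuous.measurable.mul hG.meas)).aestronglyMeasurable
    · intro n
      refine Eventually.of_forall fun x => ?_
      have e : h x * (χ n x * G x) = χ n x * (h x * G x) := by ring
      rw [e, norm_mul, Real.norm_of_nonneg (c3 n x).1]
      calc _ ≤ 1 * ‖h x * G x‖ := mul_le_mul_of_nonneg_right (c3 n x).2 (norm_nonneg _)
        _ = |h x * G x| := one_mul _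
    · refine Eventually.of_forall fun x => ?_
      have t3 : Tendsto (fun n => h x * (χ n x * G x)) atTop (nhds (h x * (1 * G x))) :=
        ((c4 x).mul_const _).const_mul _
      simpa using t3
  simp_rw [hwn] at L1
  exact tendsto_nhds_unique L1 L2

theorem ga : S_KERN → S_KC1 → S_Y2 → S_G := by
  intro hK hC1 hY κ hκ
  obtain ⟨K, D, H⟩ := hK κ hκ
  have hnc : ∀ h, Nice h → Nice (cv3 K h) := fun h hh => hY K h H.mK H.intK hh
  have hd : ∀ h, Nice h → ContDiff ℝ 1 (cv3 K h) := fun h hh =>
    (hC1 κ K D hκ H h hh.meas hh.bdd).1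
  have hD : ∀ h, Nice h → ∀ x k,
      fderiv ℝ (cv3 K h) x (EuclideanSpace.single k (1 : ℝ)) = cv3 (D k) h x := fun h hh =>
    (hC1 κ K D hκ H h hh.meas hh.bdd).2
  have hgs : ∀ h, Nice h → Integrable (fun x => dot3 (cv3 K h) (cv3 K h) x) := by
    intro h hh
    unfold dot3
    refine integrable_finsetSum _ fun k _ => ?_
    simp_rw [hD h hh]
    have := (hY (D k) h (H.mD k) (H.intD k) hh).sq
    refine this.congr (Eventually.of_forall fun x => ?_)
    simp only
    ring
  have hi : ∀ h, Nice h → ∀ x, Integrable (fun y => K (x - y) * h y) := fun h hh x =>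
    int_kh H.intK hh.meas hh.bdd x
  refine ⟨cv3 K, ⟨hd, hnc, hgs, ?_, ?_, ?_, ?_, ?_, ?_, ?_⟩⟩
  · intro h h' n1 n2 hle x
    exact integral_mono (hi h n1 x) (hi h' n2 x) fun y =>
      mul_le_mul_of_nonneg_left (hle y) (H.nonneg _)
  · intro x
    simp [cv3]
  · intro h n1 hp x
    refine int_pos (hi h n1 x) (fun y => mul_nonneg (H.nonneg _) (hp y).le) x ?_
    intro y hy
    exact mul_pos (H.pos _ (sub_ne_zero.mpr (Ne.symm hy))) (hp y)
  · intro h n1 η e1 e2
    exact weak H n1.meas n1.bdd (hD h n1) e1 e2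
  · intro h n1
    exact energy n1 (hnc h n1) (hd h n1) (hgs h n1)
      (fun η e1 e2 => weak H n1.meas n1.bdd (hD h n1) e1 e2)
  · refine ⟨Real.sqrt (∫ z, K z ^ 2), Real.sqrt_nonneg _, ?_⟩
    intro h n1 x
    have h1 : Integrable (fun y => K (x - y) ^ 2) := H.sqK.comp_sub_left x
    have h2 := (cs (f := fun y => K (x - y)) (g := h)
      (H.mK.comp (measurable_const.sub measurable_id)) n1.meas h1 n1.sq).2
    have h3 : ∫ y, K (x - y) ^ 2 = ∫ z, K z ^ 2 :=
      integral_sub_left_eq_self (fun z => K z ^ 2) volume x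
    rw [h3] at h2
    exact h2
  · intro hn h n1 n2 h0 hle hlim x
    refine tendsto_integral_of_dominated_convergence (fun y => K (x - y) * h y)
      (fun n => (hi _ (n1 n) x).aestronglyMeasurable) (hi h n2 x) ?_ ?_
    · intro n
      refine Eventually.of_forall fun y => ?_
      rw [Real.norm_of_nonneg (mul_nonneg (H.nonneg _) (h0 n y))]
      exact mul_le_mul_of_nonneg_left (hle n y) (H.nonneg _)
    · exact Eventually.of_forall fun y => (hlim y).const_mul _

end Pool.Agent.W3.TWB
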